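import Pool.Agent.Y703.CT.StmF
import Pool.Agent.Y715.T.Thr

/-!
# Project CT: local solutions of the diagonal cubic at three (S_CUB3)
-/

set_option autoImplicit false
set_option linter.unusedSectionVars false
set_option linter.unusedVariables false

namespace Pool.Agent.Y100.CT.CUB3

open Pool.Agent.Y692.QS
open Pool.Agent.Y715.T.Gi Pool.Agent.Y715.T.Nr Pool.Agent.Y715.T.Df Pool.Agent.Y715.T.Ell
open Pool.Agent.Y715.T.Red Pool.Agent.Y715.T.Thr
open Pool.Agent.Y703.CT

/-- the residue field of the prime `lam` -/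
lemma res (z : Ei) : ∃ u : Ei, (u = 0 ∨ u = 1 ∨ u = -1) ∧ lam ∣ z - u := by
  have hl : (lam : Ei) = 1 + 2 * w := by decide
  have hw := w_sq
  obtain ⟨m, k, hk, hm⟩ : ∃ m k : ℤ, (k = 0 ∨ k = 1 ∨ k = -1) ∧ z.re + z.im = 3 * m + k := by
    rcases (by omega : (z.re + z.im) % 3 = 0 ∨ (z.re + z.im) % 3 = 1 ∨ (z.re + z.im) % 3 = 2) with
      h | h | h
    · exact ⟨(z.re + z.im) / 3, 0, Or.inl rfl, by omega⟩
    · exact ⟨(z.re + z.im) / 3, 1, Or.inr (Or.inl rfl), by omega⟩
    · exact ⟨(z.re + z.im) / 3 + 1, -1, Or.inr (Or.inr rfl), by omega⟩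
  refine ⟨(k : Ei), ?_, -lam * (m : Ei) + (1 + w) * (z.im : Ei), ?_⟩
  · rcases hk with rfl | rfl | rfl
    · left; simp
    · right; left; simp
    · right; right; simp
  · have h1 : ((z.re : ℤ) : Ei) + (z.im : Ei) = 3 * (m : Ei) + (k : Ei) := by
      exact_mod_cast congrArg (Int.cast : ℤ → Ei) hm
    conv_lhs => rw [eta z]
    rw [hl]
    linear_combination h1 + (4 * (m : Ei) - 2 * (z.im : Ei)) * hw

lemma cube_res {u : Ei} (h : u = 0 ∨ u = 1 ∨ u = -1) : u ^ 3 = u := by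
  rcases h with rfl | rfl | rfl <;> ring

/-- cubes in the field generated by `I` -/
lemma root {I : PadicAlgCl 3} (hI : I ^ 2 + I + 1 = 0) {c : PadicAlgCl 3}
    (hc : ∀ τ : Au 3, τ I = I → τ c = c) (h : ‖c - 1‖ ≤ 9⁻¹) :
    ∃ y, y ^ 3 = c ∧ y ≠ 0 ∧ ∀ τ : Au 3, τ I = I → τ y = y := by
  obtain ⟨y0, hy0⟩ := IsAlgClosed.exists_pow_nat_eq c (n := 3) (by norm_num)
  obtain ⟨ρ, hρ⟩ : ∃ ρ : ℝ, ρ = ‖1 - I‖ := ⟨_, rfl⟩
  have hIn : ‖I‖ = 1 := norm_I hI
  have hρ2 : ρ ^ 2 = 3⁻¹ := by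
    have h1 : (1 - I) ^ 2 = -(3 * I) := by linear_combination hI
    rw [hρ, ← norm_pow, h1, norm_neg, norm_mul, norm_three', hIn, mul_one]
  have hρ0 : 0 < ρ := by
    rcases (norm_nonneg (1 - I)).lt_or_eq with h1 | h1
    · rw [hρ]; exact h1
    · rw [hρ, ← h1] at hρ2
      norm_num at hρ2
  have hI3 : I ^ 3 = 1 := by linear_combination (I - 1) * hI
  have hprod : (1 - y0) * (1 - I * y0) * (1 - I ^ 2 * y0) = 1 - c := by
    rw [← hy0]
    linear_combination (-y0 + y0 ^ 2 * I) * hI - y0 ^ 3 * hI3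
  have hex : ∃ y, y ^ 3 = c ∧ ‖1 - y‖ < ρ := by
    by_contra hcon
    push Not at hcon
    have h1 := hcon y0 hy0
    have h2 := hcon (I * y0) (by rw [mul_pow, hI3, one_mul, hy0])
    have h3 := hcon (I ^ 2 * y0) (by rw [mul_pow, ← pow_mul, mul_comm 2 3, pow_mul, hI3, one_pow,
      one_mul, hy0])
    have h4 := congrArg norm hprod
    rw [norm_mul, norm_mul] at h4
    have h5 : ‖(1 : PadicAlgCl 3) - c‖ ≤ 9⁻¹ := by rwa [norm_sub_rev]
    have h6 : ρ * ρ * ρ ≤ 9⁻¹ := by
      refine le_trans ?_ (h4.le.trans h5)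
      gcongr
    have h7 : ρ * ρ = 3⁻¹ := by rw [← hρ2]; ring
    rw [h7] at h6
    have h8 : ρ ≤ 3⁻¹ := by linarith
    nlinarith
  obtain ⟨y, hy, hy1⟩ := hex
  have hρ1 : ρ < 1 := by nlinarith
  have hyn : ‖y‖ = 1 := by
    have e : y = 1 + (y - 1) := by ring
    rw [e, eq_of_lt, norm_one]
    rw [norm_one, norm_sub_rev]
    exact hy1.trans hρ1
  refine ⟨y, hy, ?_, ?_⟩
  · rintro rfl
    rw [norm_zero] at hyn
    exact zero_ne_one hyn
  · intro τ hτ
    have h1 : (τ y) ^ 3 = y ^ 3 := by rw [← map_pow, hy, hc τ hτ]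
    have h2 : ‖1 - τ y‖ < ρ := by
      have h3 := nrm τ (1 - y)
      rw [map_sub, map_one] at h3
      rwa [h3]
    have h3 : ‖y - τ y‖ < ρ := by
      have e : y - τ y = (1 - τ y) - (1 - y) := by ring
      rw [e]
      exact sub_lt h2 hy1
    have h4 : (τ y - y) * (τ y - I * y) * (τ y - I ^ 2 * y) = 0 := by
      linear_combination h1 + (-(τ y) ^ 2 * y + τ y * y ^ 2 * I) * hI - y ^ 3 * hI3
    rcases mul_eq_zero.1 h4 with h5 | h5
    · rcases mul_eq_zero.1 h5 with h6 | h6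
      · exact sub_eq_zero.1 h6
      · exfalso
        rw [sub_eq_zero.1 h6] at h3
        have e : y - I * y = (1 - I) * y := by ring
        rw [e, norm_mul, hyn, mul_one, ← hρ] at h3
        exact lt_irrefl _ h3
    · exfalso
      rw [sub_eq_zero.1 h5] at h3
      have e : y - I ^ 2 * y = (1 - I) * (-I ^ 2 * y) := by linear_combination (-y) * hI3
      rw [e, norm_mul, norm_mul, norm_neg, norm_pow, hIn, hyn, ← hρ] at h3
      norm_num at h3

/-- elements congruent to one modulo nine -/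
lemma norm_nine {I : PadicAlgCl 3} (hI : I ^ 2 + I + 1 = 0) (z : Ei) :
    ‖ev I hI (9 * z)‖ ≤ 9⁻¹ := by
  have e : ev I hI (9 * z) = 3 * (3 * ev I hI z) := by
    rw [map_mul, map_ofNat]; ring
  rw [e, norm_mul, norm_mul, norm_three']
  have := ev_le hI z
  linarith

/-- **CT-CUB3** -/
theorem t_cub3 : S_CUB3 := by
  intro _ I hI B D hB hD h9
  obtain ⟨b, hb⟩ := hB
  obtain ⟨d, hd⟩ := hD
  have eB : B = 1 + 3 * b := by linear_combination hb
  have eD : D = 1 + 3 * d := by linear_combination hd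
  have hll : (lam : Ei) ^ 2 = -3 := lam_sq
  have hfix : ∀ z : Ei, ∀ τ : Au 3, τ I = I → τ (ev I hI z) = ev I hI z :=
    fun z τ hτ => ev_fix hI hτ z
  -- `d` is prime to `lam`
  have hd0 : ¬ lam ∣ d := by
    rintro ⟨e, he⟩
    apply h9
    have hre : d.re = e.re - 2 * e.im := by
      rw [he, mul_re]
      show 1 * e.re - 2 * e.im = _
      ring
    have him : d.im = 2 * e.re - e.im := by
      rw [he, mul_im]
      show 1 * e.im + 2 * e.re - 2 * e.im = _
      ring
    have r3 : (3 : Ei).re = 3 := rfl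
    have i3 : (3 : Ei).im = 0 := rfl
    have r1 : (1 : Ei).re = 1 := rfl
    have i1 : (1 : Ei).im = 0 := rfl
    have hDre : D.re = 1 + 3 * d.re := by
      rw [eD, QuadraticAlgebra.re_add, mul_re, r3, i3, r1]
      ring
    have hDim : D.im = 3 * d.im := by
      rw [eD, QuadraticAlgebra.im_add, mul_im, r3, i3, i1]
      ring
    unfold nr
    rw [hDre, hDim, hre, him]
    exact ⟨(e.re - 2 * e.im) ^ 2 - (e.re - 2 * e.im) * (2 * e.re - e.im) +
      (2 * e.re - e.im) ^ 2 - e.im, by ring⟩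
  obtain ⟨ub, hub, b', hb'⟩ := res b
  obtain ⟨ud, hud, d', hd'⟩ := res d
  have hud0 : ud ≠ 0 := by
    rintro rfl
    exact hd0 ⟨d', by linear_combination hd'⟩
  have hBn : ‖ev I hI B‖ = 1 := by
    have e : ev I hI B = 1 + 3 * ev I hI b := by
      rw [eB, map_add, map_mul, map_ofNat, map_one]
    rw [e]
    exact norm_one_add (ev_le hI b)
  have hB0 : ev I hI B ≠ 0 := by
    intro h0
    rw [h0, norm_zero] at hBn
    exact zero_ne_one hBn
  have hcase : ub = 0 ∨ ub = ud ∨ ub = -ud := by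
    rcases hud with h | h | h
    · exact absurd h hud0
    · rcases hub with h' | h' | h'
      · exact Or.inl h'
      · right; left; rw [h, h']
      · right; right; rw [h, h']
    · rcases hub with h' | h' | h'
      · exact Or.inl h'
      · right; right; rw [h, h', neg_neg]
      · right; left; rw [h, h']
  rcases hcase with h0 | h0 | h0
  · -- `b` is divisible by `lam`
    obtain ⟨u, hu, q, hq⟩ := res (-b')
    have hu3 := cube_res hu
    have eb : b = lam * b' := by linear_combination hb' + h0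
    have ebu : b' = -u - lam * q := by linear_combination -hq
    obtain ⟨z, hz⟩ : ∃ z, B ^ 2 + B * D * (lam * u) ^ 3 = 1 + 9 * z := by
      refine ⟨b ^ 2 + 2 * q - lam * u - lam * u * (b + d + 3 * b * d), ?_⟩
      rw [eB, eD]
      have h3 : (lam * u) ^ 3 = -3 * lam * u := by
        have : (lam * u) ^ 3 = lam ^ 2 * lam * u ^ 3 := by ring
        rw [this, hll, hu3]
      rw [h3]
      linear_combination 6 * eb + 6 * lam * ebu - 6 * q * hll
    obtain ⟨s, hs, hs0, hsf⟩ := root hI (c := ev I hI (1 + 9 * z)) (hfix _) (by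
      rw [map_add, map_one, add_sub_cancel_left]
      exact norm_nine hI z)
    refine ⟨s, 1, ev I hI (lam * u), ⟨fun τ hτ => ⟨hsf τ hτ, map_one τ, hfix _ τ hτ⟩,
      Or.inl hs0, ?_⟩⟩
    rw [hs, ← hz, map_add, map_mul, map_mul, map_pow, map_pow]
    ring
  · -- `b = d` modulo `lam`
    obtain ⟨u, hu, q, hq⟩ := res (-(b' - d'))
    have hu3 := cube_res hu
    have ebd : b - d = lam * (b' - d') := by linear_combination hb' - hd' + h0
    have ebu : b' - d' = -u - lam * q := by linear_combination -hq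
    obtain ⟨z, hz⟩ : ∃ z, (lam * u) ^ 3 + B * D = B ^ 2 + 9 * z := by
      refine ⟨-(b * lam * (b' - d')) - q, ?_⟩
      rw [eB, eD]
      have h3 : (lam * u) ^ 3 = -3 * lam * u := by
        have : (lam * u) ^ 3 = lam ^ 2 * lam * u ^ 3 := by ring
        rw [this, hll, hu3]
      rw [h3]
      linear_combination (-3 - 9 * b) * ebd - 3 * lam * ebu + 3 * q * hll
    obtain ⟨t, ht, ht0, htf⟩ := root hI (c := ev I hI (B ^ 2 + 9 * z) / ev I hI B ^ 2)
      (by
        intro τ hτ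
        rw [map_div₀, map_pow, hfix _ τ hτ, hfix _ τ hτ])
      (by
        have hB2 : ev I hI B ^ 2 ≠ 0 := pow_ne_zero 2 hB0
        have e : ev I hI (B ^ 2 + 9 * z) / ev I hI B ^ 2 - 1 = ev I hI (9 * z) / ev I hI B ^ 2 := by
          rw [map_add, map_pow, div_sub_one hB2, add_sub_cancel_left]
        rw [e, norm_div, norm_pow, hBn, one_pow, div_one]
        exact norm_nine hI z)
    refine ⟨ev I hI (lam * u), t, -1, ⟨fun τ hτ => ⟨hfix _ τ hτ, htf τ hτ, by
      rw [map_neg, map_one]⟩, Or.inr (Or.inl ht0), ?_⟩⟩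
    have hB2 : ev I hI B ^ 2 ≠ 0 := pow_ne_zero 2 hB0
    rw [ht, mul_div_cancel₀ _ hB2, ← hz]
    simp only [map_add, map_mul, map_pow]
    ring
  · -- `b = -d` modulo `lam`
    obtain ⟨u, hu, q, hq⟩ := res (b' + d')
    have hu3 := cube_res hu
    have ebd : b + d = lam * (b' + d') := by linear_combination hb' + hd' + h0
    have ebu : b' + d' = u + lam * q := by linear_combination hq
    obtain ⟨z, hz⟩ : ∃ z, B * D + B ^ 2 * (lam * u) ^ 3 = 1 + 9 * z := by
      refine ⟨b * d - q - lam * u * (2 * b + 3 * b ^ 2), ?_⟩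
      rw [eB, eD]
      have h3 : (lam * u) ^ 3 = -3 * lam * u := by
        have : (lam * u) ^ 3 = lam ^ 2 * lam * u ^ 3 := by ring
        rw [this, hll, hu3]
      rw [h3]
      linear_combination 3 * ebd + 3 * lam * ebu + 3 * q * hll
    obtain ⟨s, hs, hs0, hsf⟩ := root hI (c := ev I hI (1 + 9 * z)) (hfix _) (by
      rw [map_add, map_one, add_sub_cancel_left]
      exact norm_nine hI z)
    refine ⟨s, ev I hI (lam * u), 1, ⟨fun τ hτ => ⟨hsf τ hτ, hfix _ τ hτ, map_one τ⟩,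
      Or.inl hs0, ?_⟩⟩
    rw [hs, ← hz, map_add, map_mul, map_mul, map_pow, map_pow]
    ring

end Pool.Agent.Y100.CT.CUB3
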